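import Pool.Agent.MP_7b45f6_mp.H32.Spec

/-!
# Row LAD: iterating a popular ladder
-/

set_option autoImplicit false

namespace Pool.Agent.MP_7b45f6_mp.H32

open Classical Filter Topology

namespace LAD

/-- Translation of a hairpin in the first direction. -/
theorem shift (hA : LadAStmt) (θ : Par) {a b a' b' : P} {n : ℕ} {G : ℝ} (h0 : a 0 = b 0)
    (h0' : a' 0 = b' 0) (ha1 : a' 1 = a 1) (ha2 : a' 2 = a 2) (hb1 : b' 1 = b 1)
    (hb2 : b' 2 = b 2) (h : Lb (Hp a b n) (ew θ) G) : Lb (Hp a' b' n) (ew θ) G := by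
  have h1 := (hA θ).2.2.1 a b (a' - a) n G (by simp [ha2]) h
  have e1 : a + (a' - a) = a' := by abel
  have e2 : b + (a' - a) = b' := by
    refine P.ext' ?_ ?_ ?_ <;> simp only [Pi.add_apply, Pi.sub_apply] <;> omega
  rwa [e1, e2] at h1

/-- One round: two ladders are attached. -/
theorem round (hA : LadAStmt) (θ : Par) {l1 l2 r1 r2 : P} {m n : ℕ} (hl : l1 0 = l2 0)
    (hr : r1 0 = r2 0)
    (h : Lb (Ld l1 l2 r1 r2 m n) (fun x => ew θ (x.1 ++ x.2)) (Real.exp (2 * kap θ)))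
    {N : ℕ} {G : ℝ} (hG : 0 ≤ G) (hN : Lb (Hp l1 l2 N) (ew θ) G) :
    Lb (Hp l1 l2 (N + 2 * (n + 2)) ∩ Vis) (ew θ) G := by
  have e : Real.exp (2 * kap θ) * G * Real.exp (-(2 * kap θ)) = G := by
    rw [mul_right_comm, ← Real.exp_add, add_neg_cancel, Real.exp_zero, one_mul]
  have n1 : (1 : Fin 3) ≠ 0 := by decide
  have n2 : (2 : Fin 3) ≠ 0 := by decide
  have h1 := (hA θ).2.1 l1 l2 r1 r2 m n _ 0 h
  have h2 : Lb (Hp (mir 0 0 l1 + ev 0 + ev 0) (mir 0 0 l2 + ev 0 + ev 0) N) (ew θ) G := by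
    refine shift hA θ hl ?_ ?_ ?_ ?_ ?_ hN <;>
      simp [hl, mir_ne n1, mir_ne n2, ev_ne n1, ev_ne n2]
  have h3 := (hA θ).1 _ _ _ _ m n N _ G (Real.exp_pos _).le hG (by simp [hl]) h1 h2
  rw [e] at h3
  have h4 : Lb (Hp (r1 + ev 0 + ev 0) (r2 + ev 0 + ev 0) (n + N + 2)) (ew θ) G := by
    refine shift hA θ (a := mir 0 0 r1) (b := mir 0 0 r2) ?_ ?_ ?_ ?_ ?_ ?_
      (h3.mono Set.inter_subset_left (fun _ _ => le_rfl) le_rfl) <;>
      simp [hr, mir_ne n1, mir_ne n2, ev_ne n1, ev_ne n2]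
  have h5 := (hA θ).1 _ _ _ _ m n _ _ G (Real.exp_pos _).le hG hr h h4
  rw [e] at h5
  have e2 : N + 2 * (n + 2) = n + (n + N + 2) + 2 := by ring
  rwa [e2]

theorem rounds (hA : LadAStmt) (θ : Par) {l1 l2 r1 r2 : P} {m n : ℕ} (hl : l1 0 = l2 0)
    (hr : r1 0 = r2 0)
    (h : Lb (Ld l1 l2 r1 r2 m n) (fun x => ew θ (x.1 ++ x.2)) (Real.exp (2 * kap θ)))
    {N : ℕ} {G : ℝ} (hG : 0 ≤ G) (hN : Lb (Hp l1 l2 N) (ew θ) G) (k : ℕ) :
    Lb (Hp l1 l2 (N + 2 * ((k + 1) * (n + 2))) ∩ Vis) (ew θ) G := by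
  induction k with
  | zero => simpa using round hA θ hl hr h hG hN
  | succ k ih =>
    have h1 := round hA θ hl hr h hG (ih.mono Set.inter_subset_left (fun _ _ => le_rfl) le_rfl)
    have e : N + 2 * ((k + 1 + 1) * (n + 2)) = N + 2 * ((k + 1) * (n + 2)) + 2 * (n + 2) := by
      ring
    rwa [e]

end LAD

theorem lad_of : LadAStmt → PopStmt → LadStmt := by
  intro hA hP a b l l' hl hD
  set θ : Par := ⟨a, b, (l + l') / 2⟩ with hθ
  obtain ⟨l1, l2, r1, r2, m0, n, h1, -, h3, h4, h5, h6, h7⟩ :=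
    hP a b l ((l + l') / 2) (Real.exp (2 * kap θ)) (by linarith) hD
  have hδ : 0 < l - l' := by linarith
  have hk := kap_nonneg θ
  filter_upwards [ev_poly (Real.exp (kap θ * (2 * (n + 2)))) 2 1 hδ,
    eventually_ge_atTop (n + 3)] with m hm hm'
  obtain ⟨k, j, hj1, hj2, rfl⟩ : ∃ k j : ℕ, 1 ≤ j ∧ j ≤ n + 2 ∧ m = j + (k + 1) * (n + 2) := by
    have e := Nat.mod_add_div (m - (n + 3)) (n + 2)
    have e2 := Nat.mod_lt (m - (n + 3)) (show 0 < n + 2 by omega)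
    refine ⟨(m - (n + 3)) / (n + 2), (m - (n + 3)) % (n + 2) + 1, by omega, by omega, ?_⟩
    rw [add_mul, mul_comm ((m - (n + 3)) / (n + 2))]
    omega
  have s1 : Lb (Hp l1 l2 (2 * j)) (ew θ) (Real.exp (-(kap θ * (2 * (n + 2))))) := by
    refine ((hA θ).2.2.2.1 l1 l2 j h1 h3 h5 h6 hj1).mono subset_rfl (fun _ _ => le_rfl) ?_
    refine Real.exp_le_exp.2 (neg_le_neg (mul_le_mul_of_nonneg_left ?_ hk))
    have : (j : ℝ) ≤ n + 2 := by exact_mod_cast hj2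
    linarith
  have s2 := LAD.rounds hA θ h3 h4 h7 (Real.exp_pos _).le s1 k
  rw [← mul_add] at s2
  generalize j + (k + 1) * (n + 2) = m at hm s2 ⊢
  have s3 := ((hA θ).2.2.2.2 l1 l2 _ _ h1 (Real.exp_pos _).le s2).const_mul
    (Real.exp_pos ((l - l') * m)).le
  refine s3.mono subset_rfl (fun w hw => le_of_eq ?_) ?_
  · have e := phi_l a b ((l + l') / 2) l' w.toFinset
    rw [hw.1.card, hw.2.1] at e
    rw [ew, ew, e, ← Real.exp_add]
    congr 1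
    push_cast
    ring
  · rw [← mul_div_assoc, le_div_iff₀ (by positivity), Real.exp_neg, ← div_eq_mul_inv,
      le_div_iff₀ (Real.exp_pos _)]
    refine le_trans ?_ hm
    have := Real.exp_pos (kap θ * (2 * (n + 2)))
    push_cast
    nlinarith

end Pool.Agent.MP_7b45f6_mp.H32
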